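import Mathlib

set_option autoImplicit false
set_option maxHeartbeats 400000

open scoped Pointwise

namespace Pool.Agent.Results.MP_5bfb0a_al.AlmostCommutes

variable {G : Type*} [Group G]

/-- finitely many left cosets cover `L * g` -/
theorem finite_cover (L : Subgroup G) (g : G)
    (h : ((L ⊓ L.map (MulAut.conj g).toMonoidHom).subgroupOf L).FiniteIndex) :
    ∃ F : Set G, F.Finite ∧ ∀ l ∈ L, ∃ f ∈ F, f⁻¹ * (l * g) ∈ L := by
  set K := (L ⊓ L.map (MulAut.conj g).toMonoidHom).subgroupOf L with hK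
  haveI : Finite (L ⧸ K) := Subgroup.finite_quotient_of_finiteIndex
  refine ⟨Set.range (fun q : L ⧸ K => ((q.out : L) : G) * g), Set.finite_range _, ?_⟩
  intro l hl
  refine ⟨_, ⟨(QuotientGroup.mk (⟨l, hl⟩ : L) : L ⧸ K), rfl⟩, ?_⟩
  have h1 : ((QuotientGroup.mk (⟨l, hl⟩ : L) : L ⧸ K).out)⁻¹ * (⟨l, hl⟩ : L) ∈ K := by
    rw [← QuotientGroup.eq, QuotientGroup.out_eq']
  rw [hK, Subgroup.mem_subgroupOf, Subgroup.mem_inf, Subgroup.mem_map] at h1
  obtain ⟨-, x, hx, hx2⟩ := h1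
  simp only [MulEquiv.coe_toMonoidHom, MulAut.conj_apply, Subgroup.coe_mul, Subgroup.coe_inv] at hx2
  have : (((QuotientGroup.mk (⟨l, hl⟩ : L) : L ⧸ K).out : L) * g : G)⁻¹ * (l * g) = x := by
    rw [mul_inv_rev, mul_assoc, ← mul_assoc _ l g, ← hx2]; group
  rw [this]; exact hx

/-- `g` admits `n` elements of `L` with pairwise different cosets `l g L` -/
def Big (L : Subgroup G) (n : ℕ) : Set G :=
  {g | ∃ l : Fin n → G, (∀ i, l i ∈ L) ∧ ∀ i j, i ≠ j → (l i * g)⁻¹ * (l j * g) ∉ L}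

theorem exists_not_big (L : Subgroup G) (g : G)
    (h : ∃ F : Set G, F.Finite ∧ ∀ l ∈ L, ∃ f ∈ F, f⁻¹ * (l * g) ∈ L) :
    ∃ n, g ∉ Big L n := by
  obtain ⟨F, hF, h⟩ := h
  haveI := hF.to_subtype
  refine ⟨Nat.card F + 1, ?_⟩
  rintro ⟨l, hl, hp⟩
  choose f hf hf' using fun i => h (l i) (hl i)
  have hinj : Function.Injective (fun i => (⟨f i, hf i⟩ : F)) := by
    intro i j hij
    by_contra hne
    apply hp i j hne
    have e : f i = f j := congrArg Subtype.val hij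
    have h1 := hf' i
    have h2 := hf' j
    rw [e] at h1
    have := L.mul_mem (L.inv_mem h1) h2
    convert this using 1
    group
  have := Nat.card_le_card_of_injective _ hinj
  simp at this

variable [TopologicalSpace G] [IsTopologicalGroup G]

theorem isOpen_fam (L : Subgroup G) (hL : IsClosed (L : Set G)) (n : ℕ) (l : Fin n → G) :
    IsOpen {g : G | ∀ i j, i ≠ j → (l i * g)⁻¹ * (l j * g) ∉ L} := by
  have : {g : G | ∀ i j, i ≠ j → (l i * g)⁻¹ * (l j * g) ∉ L}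
      = ⋂ i, ⋂ j, ⋂ (_ : i ≠ j), (fun g => (l i * g)⁻¹ * (l j * g)) ⁻¹' (L : Set G)ᶜ := by
    ext g; simp
  rw [this]
  refine isOpen_iInter_of_finite fun i => isOpen_iInter_of_finite fun j =>
    isOpen_iInter_of_finite fun _ => ?_
  exact hL.isOpen_compl.preimage (by fun_prop)

theorem isOpen_big (L : Subgroup G) (hL : IsClosed (L : Set G)) (n : ℕ) : IsOpen (Big L n) := by
  have : Big L n = ⋃ l : Fin n → G, ⋃ (_ : ∀ i, l i ∈ L),
      {g : G | ∀ i j, i ≠ j → (l i * g)⁻¹ * (l j * g) ∉ L} := by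
    ext g; simp [Big]
  rw [this]
  exact isOpen_iUnion fun l => isOpen_iUnion fun _ => isOpen_fam L hL n l

theorem exists_good [BaireSpace G] (L : Subgroup G) (hL : IsClosed (L : Set G))
    (h : ∀ g, ∃ n, g ∉ Big L n) :
    ∃ W : Set G, IsOpen W ∧ W.Nonempty ∧ ∃ F : Set G, F.Finite ∧
      ∀ g ∈ W, ∀ l ∈ L, ∃ f ∈ F, (f * g)⁻¹ * (l * g) ∈ L := by
  classical
  have hex : ∃ n, (interior (Big L n)ᶜ).Nonempty := by
    refine nonempty_interior_of_iUnion_of_closed (fun n => (isOpen_big L hL n).isClosed_compl) ?_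
    ext g
    simpa using h g
  have hs := Nat.find_spec hex
  have hmin := fun m => Nat.find_min hex (m := m)
  generalize Nat.find hex = n at hs hmin
  cases n with
  | zero =>
    obtain ⟨g, hg⟩ := hs
    exact absurd (interior_subset hg) (by
      simp only [Set.mem_compl_iff, not_not]
      exact ⟨Fin.elim0, fun i => i.elim0, fun i => i.elim0⟩)
  | succ m =>
    have h1 := hmin m (Nat.lt_succ_self m)
    have h2 : ∃ g ∈ interior (Big L (m + 1))ᶜ, g ∈ Big L m := by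
      by_contra hcon
      push Not at hcon
      apply h1
      obtain ⟨g, hg⟩ := hs
      exact ⟨g, interior_maximal (fun x hx => hcon x hx) isOpen_interior hg⟩
    obtain ⟨g0, hg0, l, hl, hp⟩ := h2
    refine ⟨interior (Big L (m + 1))ᶜ ∩ {g : G | ∀ i j, i ≠ j → (l i * g)⁻¹ * (l j * g) ∉ L},
      isOpen_interior.inter (isOpen_fam L hL m l), ⟨g0, hg0, hp⟩, Set.range l,
      Set.finite_range l, ?_⟩
    rintro g ⟨hg1, hg2⟩ a ha
    by_contra hcon
    push Not at hcon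
    apply interior_subset hg1
    refine ⟨Fin.cons a l, ?_, ?_⟩
    · intro i
      refine Fin.cases ?_ (fun i => ?_) i
      · simpa using ha
      · simpa using hl i
    · intro i j
      refine Fin.cases ?_ (fun i => ?_) i <;> refine Fin.cases ?_ (fun j => ?_) j <;> intro hij
      · exact absurd rfl hij
      · simp only [Fin.cons_zero, Fin.cons_succ]
        intro hm
        apply hcon (l j) ⟨j, rfl⟩
        convert L.inv_mem hm using 1
        group
      · simp only [Fin.cons_zero, Fin.cons_succ]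
        exact hcon (l i) ⟨i, rfl⟩
      · simp only [Fin.cons_succ]
        exact hg2 i j (fun e => hij (by rw [e]))

theorem one_side [LocallyCompactSpace G] [T2Space G] (L : Subgroup G) (hL : IsClosed (L : Set G))
    (h : ∀ g, ∃ F : Set G, F.Finite ∧ ∀ l ∈ L, ∃ f ∈ F, f⁻¹ * (l * g) ∈ L)
    (C : Set G) (hC : IsCompact C) :
    ∃ D : Set G, IsCompact D ∧ (L : Set G) * C ⊆ D * (L : Set G) := by
  classical
  obtain ⟨W, hW, ⟨g0, hg0⟩, F, hF, hWF⟩ := exists_good L hL fun g => exists_not_big L g (h g)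
  obtain ⟨E, hE, hEW, hEc⟩ := local_compact_nhds (hW.mem_nhds hg0)
  choose Φ hΦ hΦ' using h
  obtain ⟨t, -, ht⟩ := hC.elim_nhds_subcover (fun c => (fun x => g0 * c⁻¹ * x) ⁻¹' E) (by
    intro c _
    have : Continuous (fun x => g0 * c⁻¹ * x) := by fun_prop
    apply this.continuousAt.preimage_mem_nhds
    simpa using hE)
  refine ⟨⋃ c ∈ t, Φ (c * g0⁻¹) * F * E, ?_, ?_⟩
  · exact t.isCompact_biUnion fun c _ => (((hΦ _).mul hF).isCompact).mul hEc
  · rintro _ ⟨l, hl, x, hx, rfl⟩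
    obtain ⟨c, hc, hxc⟩ := Set.mem_iUnion₂.1 (ht hx)
    obtain ⟨f, hf, hf'⟩ := hΦ' (c * g0⁻¹) l hl
    obtain ⟨f2, hf2, hf2'⟩ := hWF _ (hEW hxc) _ hf'
    refine ⟨f * f2 * (g0 * c⁻¹ * x), Set.mem_iUnion₂.2 ⟨c, hc, ?_⟩, _, hf2', ?_⟩
    · exact Set.mul_mem_mul (Set.mul_mem_mul hf hf2) hxc
    · simp only []
      group

theorem result {Γ : Type*} [Group Γ] [TopologicalSpace Γ] [IsTopologicalGroup Γ]
    [LocallyCompactSpace Γ] [T2Space Γ] (Λ : Subgroup Γ) (hclosed : IsClosed (Λ : Set Γ))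
    (hcomm : ∀ g : Γ, ((Λ ⊓ Λ.map (MulAut.conj g).toMonoidHom).subgroupOf Λ).FiniteIndex)
    (C : Set Γ) (hC : IsCompact C) :
    ∃ C' : Set Γ, IsCompact C' ∧ C * (Λ : Set Γ) ⊆ (Λ : Set Γ) * C' ∧
      (Λ : Set Γ) * C ⊆ C' * (Λ : Set Γ) := by
  have h := fun g => finite_cover Λ g (hcomm g)
  obtain ⟨D, hD, h1⟩ := one_side Λ hclosed h C hC
  obtain ⟨D', hD', h2⟩ := one_side Λ hclosed h C⁻¹ hC.inv
  refine ⟨D ∪ D'⁻¹, hD.union hD'.inv, ?_, ?_⟩
  · rintro _ ⟨c, hc, l, hl, rfl⟩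
    obtain ⟨d, hd, m, hm, e⟩ := h2 (Set.mul_mem_mul (Λ.inv_mem hl) (Set.inv_mem_inv.2 hc))
    refine ⟨m⁻¹, Λ.inv_mem hm, d⁻¹, Or.inr (Set.inv_mem_inv.2 hd), ?_⟩
    simp only [] at e ⊢
    rw [← mul_inv_rev, e]; group
  · exact h1.trans (Set.mul_subset_mul_right Set.subset_union_left)

end Pool.Agent.Results.MP_5bfb0a_al.AlmostCommutes
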